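import Mathlib

/-!
# The Chebyshev center need not be a regularizer over the reals

Problem `MP_ef9ba3_an`, Q1.  We exhibit real data on `H = ℝ²` with `m = 2` (and with `P` and `Λ`
both injective) for which the Chebyshev center of the consistent set is not a minimiser of `F_τ`
for any `τ ∈ [0,1]`.

The data: `P (u,v) = (u, u+v)`, `Λ (u,v) = (u, u-v)`, `y = (0,-2)`, `ε = η = √5`.
The consistent set is contained in the disc of radius `2` about `(-1,1)` and contains the two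
antipodal points `(-1,3)`, `(-1,-1)` of that disc, so `(-1,1)` is its Chebyshev center, but the
`u`-derivative of `F_τ` at `(-1,1)` equals `-2` for every `τ`.
-/

namespace Pool.Agent.Results.MP_ef9ba3_an.RealCounterexample

section Definitions

variable {H : Type*} [NormedAddCommGroup H] [InnerProductSpace ℝ H]

/-- The set `K_{y,E}` of elements `f` with `‖P f‖ ≤ ε` and `‖y - Λ f‖ ≤ η`. -/
def consistentSet {m : ℕ} (P : H →ₗ[ℝ] H) (Λ : H →ₗ[ℝ] EuclideanSpace ℝ (Fin m))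
    (ε η : ℝ) (y : EuclideanSpace ℝ (Fin m)) : Set H :=
  {f | ‖P f‖ ≤ ε ∧ ‖y - Λ f‖ ≤ η}

/-- The worst-case error `sup_{f ∈ S} ‖f - z‖` of the estimate `z` over `S`. -/
noncomputable def worstError (S : Set H) (z : H) : ℝ :=
  sSup ((fun f : H => ‖f - z‖) '' S)

/-- `z` is a Chebyshev center of `S`: it minimises the worst-case error over all of `H`. -/
def IsChebyshevCenter (S : Set H) (z : H) : Prop :=
  ∀ w : H, worstError S z ≤ worstError S w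

/-- The regularization functional `F_τ(f) = (1-τ) ‖P f‖² + τ ‖y - Λ f‖²`. -/
noncomputable def regFunctional {m : ℕ} (P : H →ₗ[ℝ] H) (Λ : H →ₗ[ℝ] EuclideanSpace ℝ (Fin m))
    (y : EuclideanSpace ℝ (Fin m)) (τ : ℝ) (f : H) : ℝ :=
  (1 - τ) * ‖P f‖ ^ 2 + τ * ‖y - Λ f‖ ^ 2

end Definitions

/-- The Euclidean plane. -/
abbrev Plane : Type := EuclideanSpace ℝ (Fin 2)

/-- `P (u,v) = (u, u+v)`. -/
noncomputable def P₀ : Plane →ₗ[ℝ] Plane := Matrix.toEuclideanLin !![1, 0; 1, 1]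

/-- `Λ (u,v) = (u, u-v)`. -/
noncomputable def Λ₀ : Plane →ₗ[ℝ] Plane := Matrix.toEuclideanLin !![1, 0; 1, -1]

/-- `y = (0,-2)`. -/
noncomputable def y₀ : Plane := !₂[0, -2]

/-- The Chebyshev center `(-1,1)`. -/
noncomputable def z₀ : Plane := !₂[-1, 1]

lemma norm_sq (f : Plane) : ‖f‖ ^ 2 = (f 0) ^ 2 + (f 1) ^ 2 := by
  rw [EuclideanSpace.norm_sq_eq]
  simp [Fin.sum_univ_two]

lemma P₀_zero (f : Plane) : P₀ f 0 = f 0 := by
  simp [P₀, Matrix.toLpLin_apply, dotProduct, Fin.sum_univ_two]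

lemma P₀_one (f : Plane) : P₀ f 1 = f 0 + f 1 := by
  simp [P₀, Matrix.toLpLin_apply, dotProduct, Fin.sum_univ_two]

lemma Λ₀_zero (f : Plane) : Λ₀ f 0 = f 0 := by
  simp [Λ₀, Matrix.toLpLin_apply, dotProduct, Fin.sum_univ_two]

lemma Λ₀_one (f : Plane) : Λ₀ f 1 = f 0 - f 1 := by
  simp [Λ₀, Matrix.toLpLin_apply, dotProduct, Fin.sum_univ_two]
  ring

lemma norm_sq_P (f : Plane) : ‖P₀ f‖ ^ 2 = (f 0) ^ 2 + (f 0 + f 1) ^ 2 := by
  rw [norm_sq, P₀_zero, P₀_one]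

lemma norm_sq_Λ (f : Plane) : ‖y₀ - Λ₀ f‖ ^ 2 = (f 0) ^ 2 + (f 0 - f 1 + 2) ^ 2 := by
  rw [norm_sq]
  have h0 : (y₀ - Λ₀ f) 0 = - f 0 := by
    simp [y₀, Λ₀_zero]
  have h1 : (y₀ - Λ₀ f) 1 = -(f 0 - f 1 + 2) := by
    simp [y₀, Λ₀_one]
    ring
  rw [h0, h1]
  ring

lemma norm_le_sqrt_five_iff (v : Plane) : ‖v‖ ≤ Real.sqrt 5 ↔ ‖v‖ ^ 2 ≤ 5 := by
  constructor
  · intro h
    have := pow_le_pow_left₀ (norm_nonneg v) h 2
    rwa [Real.sq_sqrt (by norm_num)] at this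
  · intro h
    exact Real.le_sqrt_of_sq_le h

/-- The consistent set of the example. -/
noncomputable def K₀ : Set Plane := consistentSet P₀ Λ₀ (Real.sqrt 5) (Real.sqrt 5) y₀

lemma mem_K₀ (f : Plane) :
    f ∈ K₀ ↔ (f 0) ^ 2 + (f 0 + f 1) ^ 2 ≤ 5 ∧ (f 0) ^ 2 + (f 0 - f 1 + 2) ^ 2 ≤ 5 := by
  unfold K₀ consistentSet
  rw [Set.mem_ofPred_eq, norm_le_sqrt_five_iff, norm_le_sqrt_five_iff, norm_sq_P, norm_sq_Λ]

lemma norm_sub_z₀_sq (f : Plane) : ‖f - z₀‖ ^ 2 = (f 0 + 1) ^ 2 + (f 1 - 1) ^ 2 := by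
  rw [norm_sq]
  simp [z₀]

/-- The consistent set lies in the disc of radius `2` about `z₀`. -/
lemma K₀_subset (f : Plane) (hf : f ∈ K₀) : ‖f - z₀‖ ≤ 2 := by
  rw [mem_K₀] at hf
  obtain ⟨h1, h2⟩ := hf
  have key : ‖f - z₀‖ ^ 2 ≤ 2 ^ 2 := by
    rw [norm_sub_z₀_sq]
    set u := f 0
    set v := f 1
    rcases le_total 0 (u + 1) with hu | hu
    · rcases le_total 0 (v - 1) with hv | hv
      · -- first quadrant, use `h1`
        rcases le_total 2 ((u + 1) + 2 * (v - 1)) with h | h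
        · nlinarith [mul_nonneg hu (sub_nonneg.2 h)]
        · nlinarith [mul_nonneg hu hv]
      · rcases le_total 2 ((u + 1) - 2 * (v - 1)) with h | h
        · nlinarith [mul_nonneg hu (sub_nonneg.2 h)]
        · nlinarith [mul_nonneg hu (sub_nonneg.2 hv)]
    · rcases le_total 0 (v - 1) with hv | hv
      · nlinarith [mul_nonneg (neg_nonneg.2 hu) hv]
      · nlinarith [mul_nonneg (neg_nonneg.2 hu) (neg_nonneg.2 hv)]
  exact le_of_sq_le_sq key (by norm_num)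

/-- The two antipodal points. -/
noncomputable def pA : Plane := !₂[-1, 3]
/-- The two antipodal points. -/
noncomputable def pB : Plane := !₂[-1, -1]

lemma pA_mem : pA ∈ K₀ := by
  rw [mem_K₀]
  constructor <;> norm_num [pA]

lemma pB_mem : pB ∈ K₀ := by
  rw [mem_K₀]
  constructor <;> norm_num [pB]

lemma bddAbove_image (w : Plane) : BddAbove ((fun f : Plane => ‖f - w‖) '' K₀) := by
  refine ⟨2 + ‖z₀ - w‖, ?_⟩
  rintro _ ⟨f, hf, rfl⟩
  have h1 : f - w = (f - z₀) + (z₀ - w) := by abel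
  calc ‖f - w‖ = ‖(f - z₀) + (z₀ - w)‖ := by rw [h1]
    _ ≤ ‖f - z₀‖ + ‖z₀ - w‖ := norm_add_le _ _
    _ ≤ 2 + ‖z₀ - w‖ := by linarith [K₀_subset f hf]

lemma worstError_z₀ : worstError K₀ z₀ ≤ 2 := by
  unfold worstError
  apply csSup_le
  · exact ⟨_, ⟨pA, pA_mem, rfl⟩⟩
  · rintro _ ⟨f, hf, rfl⟩
    exact K₀_subset f hf

lemma two_sq_add_le (w : Plane) : 2 ^ 2 + ‖w - z₀‖ ^ 2 ≤ (worstError K₀ w) ^ 2 := by
  have hA : ‖pA - w‖ ≤ worstError K₀ w := le_csSup (bddAbove_image w) ⟨pA, pA_mem, rfl⟩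
  have hB : ‖pB - w‖ ≤ worstError K₀ w := le_csSup (bddAbove_image w) ⟨pB, pB_mem, rfl⟩
  have hA2 := pow_le_pow_left₀ (norm_nonneg _) hA 2
  have hB2 := pow_le_pow_left₀ (norm_nonneg _) hB 2
  have eA : ‖pA - w‖ ^ 2 = (-1 - w 0) ^ 2 + (3 - w 1) ^ 2 := by
    rw [norm_sq]; simp [pA]
  have eB : ‖pB - w‖ ^ 2 = (-1 - w 0) ^ 2 + (-1 - w 1) ^ 2 := by
    rw [norm_sq]; simp [pB]
  rw [norm_sub_z₀_sq]
  rw [eA] at hA2
  rw [eB] at hB2
  nlinarith

lemma worstError_nonneg (w : Plane) : 0 ≤ worstError K₀ w :=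
  le_trans (norm_nonneg _) (le_csSup (bddAbove_image w) ⟨pA, pA_mem, rfl⟩)

lemma isChebyshevCenter_z₀ : IsChebyshevCenter K₀ z₀ := by
  intro w
  refine le_trans worstError_z₀ ?_
  have h := two_sq_add_le w
  have h2 : (2 : ℝ) ^ 2 ≤ (worstError K₀ w) ^ 2 := by nlinarith [sq_nonneg ‖w - z₀‖]
  exact le_of_sq_le_sq h2 (worstError_nonneg w)

lemma eq_z₀_of_isChebyshevCenter (w : Plane) (hw : IsChebyshevCenter K₀ w) : w = z₀ := by
  have h1 : worstError K₀ w ≤ 2 := (hw z₀).trans worstError_z₀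
  have h2 := two_sq_add_le w
  have h3 : (worstError K₀ w) ^ 2 ≤ 2 ^ 2 := pow_le_pow_left₀ (worstError_nonneg w) h1 2
  have h4 : ‖w - z₀‖ ^ 2 ≤ 0 := by linarith
  have h5 : ‖w - z₀‖ = 0 := by
    have := sq_nonneg ‖w - z₀‖
    exact pow_eq_zero_iff (two_ne_zero) |>.1 (le_antisymm h4 this)
  exact sub_eq_zero.1 (norm_eq_zero.1 h5)

/-- **Disproof of Q1.**  There are `P, Λ : ℝ² → ℝ²` linear (both injective, hence
`ker P ⊓ ker Λ = ⊥`), `ε, η > 0` and `y ∈ ℝ²` with nonempty consistent set whose Chebyshev center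
exists, is unique, and minimises `F_τ` for no `τ ∈ [0,1]`. -/
theorem result :
    ∃ (P : EuclideanSpace ℝ (Fin 2) →ₗ[ℝ] EuclideanSpace ℝ (Fin 2))
      (Λ : EuclideanSpace ℝ (Fin 2) →ₗ[ℝ] EuclideanSpace ℝ (Fin 2))
      (ε η : ℝ) (y : EuclideanSpace ℝ (Fin 2)),
      0 < ε ∧ 0 < η ∧ LinearMap.ker P = ⊥ ∧ LinearMap.ker Λ = ⊥ ∧
      (consistentSet P Λ ε η y).Nonempty ∧
      (∃! z : EuclideanSpace ℝ (Fin 2), IsChebyshevCenter (consistentSet P Λ ε η y) z) ∧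
      ∀ z : EuclideanSpace ℝ (Fin 2), IsChebyshevCenter (consistentSet P Λ ε η y) z →
        ∀ τ ∈ Set.Icc (0 : ℝ) 1, ∃ f : EuclideanSpace ℝ (Fin 2),
          regFunctional P Λ y τ f < regFunctional P Λ y τ z := by
  refine ⟨P₀, Λ₀, Real.sqrt 5, Real.sqrt 5, y₀, by positivity, by positivity, ?_, ?_,
    ⟨pA, pA_mem⟩, ⟨z₀, isChebyshevCenter_z₀, eq_z₀_of_isChebyshevCenter⟩, ?_⟩
  · rw [LinearMap.ker_eq_bot']
    intro f hf
    have h0 : f 0 = 0 := by rw [← P₀_zero, hf]; simp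
    have h1 : f 0 + f 1 = 0 := by rw [← P₀_one, hf]; simp
    ext i
    fin_cases i
    · simpa using h0
    · simpa using (by linarith : f 1 = 0)
  · rw [LinearMap.ker_eq_bot']
    intro f hf
    have h0 : f 0 = 0 := by rw [← Λ₀_zero, hf]; simp
    have h1 : f 0 - f 1 = 0 := by rw [← Λ₀_one, hf]; simp
    ext i
    fin_cases i
    · simpa using h0
    · simpa using (by linarith : f 1 = 0)
  · intro z hz τ hτ
    have hz' : z = z₀ := eq_z₀_of_isChebyshevCenter z hz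
    subst hz'
    refine ⟨!₂[-1 / 2, 1], ?_⟩
    unfold regFunctional
    rw [norm_sq_P, norm_sq_P, norm_sq_Λ, norm_sq_Λ]
    simp [z₀]
    nlinarith [hτ.1, hτ.2]

end Pool.Agent.Results.MP_ef9ba3_an.RealCounterexample
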